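import Pool.Agent.Q324.FA.Mark
import Pool.Agent.Q324.CN.Main

/-!
# Deciding factorizations of finite languages is NP-hard
-/

namespace Pool.Agent.Q324.FA

open Pool.Agent.NPC Pool.Agent.Q324.CN

/-- the alphabet of the middle parts -/
def Sg (φ : Φ) : List ℕ :=
  4 :: ((List.range (3 * φ.length)).map (fun i => V (lt φ i).2) ++
    (List.range (3 * φ.length)).map Cl)

/-- the excluded words of the four parts -/
def ex (φ : Φ) (i j : Bool) : List (List ℕ) :=
  if i = true then
    if j = true then [] else (List.range φ.length).map (fun j => P (3 * j + 2))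
  else
    if j = true then (List.range (3 * φ.length)).map (fun i => [4, V (lt φ i).2])
    else (List.range (3 * φ.length)).map (fun i => P i ++ sg (lt φ i))

/-- the middle parts -/
def mid (φ : Φ) (i j : Bool) : List (List ℕ) :=
  (allWords (Sg φ) 22).filter fun w => !decide (w ∈ ex φ i j)

/-- the words of row `i` and column `j` -/
def part (φ : Φ) (i j : Bool) : List (List ℕ) :=
  (mid φ i j).map fun w => rm i :: (w ++ [cm j])

/-- the language -/
def words (φ : Φ) : List (List ℕ) :=
  (part φ false false ++ part φ false true) ++ (part φ true false ++ part φ true true)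

/-- the instance -/
def inst (φ : Φ) : List ℕ × List (List ℕ) := ([0, 1, 2, 3] ++ Sg φ, words φ)

theorem mem_mid {φ : Φ} {i j : Bool} {w : List ℕ} : w ∈ mid φ i j ↔
    w.length ≤ 22 ∧ (∀ x ∈ w, x ∈ Sg φ) ∧ w ∉ ex φ i j := by
  unfold mid
  rw [List.mem_filter, mem_allWords]
  simp [and_assoc]

theorem mem_words {φ : Φ} {w : List ℕ} : w ∈ words φ ↔ Lg (fun i j m => m ∈ mid φ i j) w := by
  unfold words part Lg
  simp only [List.mem_append, List.mem_map]
  constructor
  · rintro ((⟨m, hm, rfl⟩ | ⟨m, hm, rfl⟩) | (⟨m, hm, rfl⟩ | ⟨m, hm, rfl⟩))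
    · exact ⟨_, _, m, hm, rfl⟩
    · exact ⟨_, _, m, hm, rfl⟩
    · exact ⟨_, _, m, hm, rfl⟩
    · exact ⟨_, _, m, hm, rfl⟩
  · rintro ⟨i, j, m, hm, rfl⟩
    cases i <;> cases j
    · exact Or.inl (Or.inl ⟨m, hm, rfl⟩)
    · exact Or.inl (Or.inr ⟨m, hm, rfl⟩)
    · exact Or.inr (Or.inl ⟨m, hm, rfl⟩)
    · exact Or.inr (Or.inr ⟨m, hm, rfl⟩)

theorem Sg_ge {φ : Φ} {x : ℕ} (h : x ∈ Sg φ) : 4 ≤ x := by
  unfold Sg at h
  simp only [List.mem_cons, List.mem_append, List.mem_map] at h
  rcases h with rfl | ⟨i, _, rfl⟩ | ⟨i, _, rfl⟩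
  · exact le_rfl
  · unfold V; omega
  · unfold Cl; omega

theorem V_mem {φ : Φ} {x : ℕ} (h : V x ∈ Sg φ) : ∃ i < 3 * φ.length, x = (lt φ i).2 := by
  unfold Sg at h
  simp only [List.mem_cons, List.mem_append, List.mem_map, List.mem_range] at h
  rcases h with h | ⟨i, hi, h⟩ | ⟨i, _, h⟩
  · unfold V at h; omega
  · exact ⟨i, hi, by unfold V at h; omega⟩
  · unfold V Cl at h; omega

theorem ex00 {φ : Φ} {w : List ℕ} : w ∈ ex φ false false ↔ Conf φ.length (lt φ) w := by
  unfold ex Conf
  simp [List.mem_map, eq_comm]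

theorem ex01 {φ : Φ} {w : List ℕ} (hw : ∀ x ∈ w, x ∈ Sg φ) :
    w ∈ ex φ false true ↔ ∃ x, w = [4, V x] := by
  unfold ex
  simp only [Bool.false_eq_true, if_false, if_true, List.mem_map, List.mem_range]
  constructor
  · rintro ⟨i, _, rfl⟩
    exact ⟨_, rfl⟩
  · rintro ⟨x, rfl⟩
    obtain ⟨i, hi, rfl⟩ := V_mem (hw (V x) (by simp))
    exact ⟨i, hi, rfl⟩

theorem ex10 {φ : Φ} {w : List ℕ} : w ∈ ex φ true false ↔ ∃ j < φ.length, w = P (3 * j + 2) := by
  unfold ex
  simp [List.mem_map, eq_comm]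

theorem ex11 {φ : Φ} {w : List ℕ} : w ∈ ex φ true true ↔ False := by
  unfold ex
  simp

theorem valid_inst (φ : Φ) : Valid (inst φ) := by
  constructor
  · intro h
    have h1 : rm true :: ([] ++ [cm true]) ∈ words φ := by
      rw [mem_words, Lg_iff, mem_mid]
      exact ⟨by simp, by simp, by rw [ex11]; exact id⟩
    rw [show words φ = [] from h] at h1
    exact absurd h1 (by simp)
  · intro w hw x hx
    obtain ⟨i, j, m, hm, rfl⟩ := mem_words.1 hw
    have hm' := (mem_mid.1 hm).2.1
    change x ∈ [0, 1, 2, 3] ++ Sg φ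
    rw [List.mem_append]
    rcases List.mem_cons.1 hx with rfl | hx
    · left
      cases i <;> simp [rm]
    · rcases List.mem_append.1 hx with hx | hx
      · exact Or.inr (hm' x hx)
      · left
        rw [List.mem_singleton] at hx
        subst hx
        cases j <;> simp [cm]

open Classical in
/-- **The reduction is correct.** -/
theorem inst_iff (φ : Φ) : SAT3 φ ↔ HasFactorization (inst φ) := by
  rw [sat_iff]
  constructor
  · rintro ⟨τ, hτ⟩
    let fin : (List ℕ → Prop) → Finset (List ℕ) := fun Q =>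
      ((allWords (Sg φ) 11).filter fun w => decide (Q w)).toFinset
    have hfin : ∀ {Q : List ℕ → Prop}, (∀ w, Q w → w.length ≤ 11 ∧ ∀ x ∈ w, x ∈ Sg φ) →
        ∀ w, w ∈ fin Q ↔ Q w := by
      intro Q hQ w
      simp only [fin, List.mem_toFinset, List.mem_filter, decide_eq_true_eq, mem_allWords]
      exact ⟨fun h => h.2, fun h => ⟨hQ w h, h⟩⟩
    have f1 := hfin (Q := A1 φ.length (lt φ) τ (Sg φ)) (fun w h => h.1)
    have f2 := hfin (Q := A2 φ.length (Sg φ)) (fun w h => h.1)
    have g1 := hfin (Q := B1 φ.length (lt φ) τ (Sg φ)) (fun w h => h.1)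
    have g2 := hfin (Q := B2 (Sg φ)) (fun w h => h.1)
    let A : Bool → Finset (List ℕ) := fun i =>
      if i = true then fin (A2 φ.length (Sg φ)) else fin (A1 φ.length (lt φ) τ (Sg φ))
    let B : Bool → Finset (List ℕ) := fun j =>
      if j = true then fin (B2 (Sg φ)) else fin (B1 φ.length (lt φ) τ (Sg φ))
    have hAB : ∀ i j w, w ∈ mid φ i j ↔ ∃ u ∈ A i, ∃ v ∈ B j, u ++ v = w := by
      intro i j w
      rw [mem_mid]
      cases i <;> cases j
      · simp only [A, B, Bool.false_eq_true, if_false]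
        rw [ex00, prod11 hτ]
        simp only [f1, g1]
        exact ⟨fun ⟨u, v, h1, h2, h3⟩ => ⟨u, h1, v, h2, h3⟩,
          fun ⟨u, h1, v, h2, h3⟩ => ⟨u, v, h1, h2, h3⟩⟩
      · simp only [A, B, Bool.false_eq_true, if_false, if_true]
        have : (w.length ≤ 22 ∧ (∀ x ∈ w, x ∈ Sg φ) ∧ w ∉ ex φ false true) ↔
            (w.length ≤ 22 ∧ (∀ x ∈ w, x ∈ Sg φ) ∧ ¬ ∃ x, w = [4, V x]) := by
          refine and_congr_right fun _ => and_congr_right fun h => ?_
          rw [ex01 h]
        rw [this, prod12 (m := φ.length) (l := lt φ) (τ := τ)]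
        simp only [f1, g2]
        exact ⟨fun ⟨u, v, h1, h2, h3⟩ => ⟨u, h1, v, h2, h3⟩,
          fun ⟨u, h1, v, h2, h3⟩ => ⟨u, v, h1, h2, h3⟩⟩
      · simp only [A, B, Bool.false_eq_true, if_false, if_true]
        rw [ex10, prod21 (l := lt φ) (τ := τ)]
        simp only [f2, g1]
        exact ⟨fun ⟨u, v, h1, h2, h3⟩ => ⟨u, h1, v, h2, h3⟩,
          fun ⟨u, h1, v, h2, h3⟩ => ⟨u, v, h1, h2, h3⟩⟩
      · simp only [A, B, if_true]
        rw [ex11, prod22 (m := φ.length)]
        simp only [f2, g2]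
        exact ⟨fun ⟨u, v, h1, h2, h3⟩ => ⟨u, h1, v, h2, h3⟩,
          fun ⟨u, h1, v, h2, h3⟩ => ⟨u, v, h1, h2, h3⟩⟩
    have hnil : ([] : List ℕ) ∈ mid φ true true := by
      rw [mem_mid]
      exact ⟨by simp, by simp, by rw [ex11]; exact id⟩
    obtain ⟨u, hu, v, hv, -⟩ := (hAB true true []).1 hnil
    obtain ⟨L₁, L₂, h1, h2, h3, h4, h5⟩ := to_factorization A B hAB ⟨u, hu⟩ ⟨v, hv⟩
    have hA : ∀ i, ∀ a ∈ A i, ∀ x ∈ a, x ∈ Sg φ := by
      intro i a ha
      cases i
      · simp only [A, Bool.false_eq_true, if_false] at ha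
        exact ((f1 a).1 ha).1.2
      · simp only [A, if_true] at ha
        exact ((f2 a).1 ha).1.2
    have hB : ∀ i, ∀ a ∈ B i, ∀ x ∈ a, x ∈ Sg φ := by
      intro i a ha
      cases i
      · simp only [B, Bool.false_eq_true, if_false] at ha
        exact ((g1 a).1 ha).1.2
      · simp only [B, if_true] at ha
        exact ((g2 a).1 ha).1.2
    refine ⟨L₁, L₂, ⟨fun u hu x hx => ?_, fun v hv x hx => ?_, fun w => ?_⟩, h2, h3⟩
    · obtain ⟨i, a, ha, rfl⟩ := h4 u hu
      change x ∈ [0, 1, 2, 3] ++ Sg φ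
      rw [List.mem_append]
      rcases List.mem_cons.1 hx with rfl | hx
      · left
        cases i <;> simp [rm]
      · exact Or.inr (hA i a ha x hx)
    · obtain ⟨j, b, hb, rfl⟩ := h5 v hv
      change x ∈ [0, 1, 2, 3] ++ Sg φ
      rw [List.mem_append]
      rcases List.mem_append.1 hx with hx | hx
      · exact Or.inr (hB j b hb x hx)
      · left
        rw [List.mem_singleton] at hx
        subst hx
        cases j <;> simp [cm]
    · change w ∈ words φ ↔ _
      rw [mem_words]
      exact h1 w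
  · rintro ⟨L₁, L₂, ⟨-, -, h⟩, h1, h2⟩
    have h' : ∀ w, Lg (fun i j m => m ∈ mid φ i j) w ↔ ∃ u ∈ L₁, ∃ v ∈ L₂, u ++ v = w := by
      intro w
      rw [← mem_words]
      exact h w
    have hne : ∀ i j, [] ∈ mid φ i j := by
      intro i j
      rw [mem_mid]
      refine ⟨by simp, by simp, ?_⟩
      cases i <;> cases j
      · rw [ex00]
        rintro ⟨i, _, h⟩
        exact P_ne i (List.append_eq_nil_iff.1 h.symm).1
      · rw [ex01 (by simp)]
        simp
      · rw [ex10]
        rintro ⟨j, _, h⟩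
        exact P_ne _ h.symm
      · rw [ex11]
        exact id
    obtain ⟨A, B, hAB⟩ := of_factorization
      (fun i j m hm x hx => Sg_ge ((mem_mid.1 hm).2.1 x hx)) hne h' h1 h2
    refine sound (m := φ.length) (l := lt φ) (S := Sg φ) (A₁ := A false) (A₂ := A true)
      (B₁ := B false) (B₂ := B true) ?_ ?_ ?_ ?_ ?_ ?_ ?_
    · simp [Sg]
    · intro i hi
      unfold Sg
      exact List.mem_cons_of_mem _ (List.mem_append_left _
        (List.mem_map.2 ⟨i, List.mem_range.2 hi, rfl⟩))
    · intro i hi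
      unfold Sg
      exact List.mem_cons_of_mem _ (List.mem_append_right _
        (List.mem_map.2 ⟨i, List.mem_range.2 hi, rfl⟩))
    · intro w
      rw [← hAB, mem_mid, ex00]
    · intro w
      rw [← hAB, mem_mid]
      refine and_congr_right fun _ => and_congr_right fun hw => ?_
      rw [ex01 hw]
    · intro w
      rw [← hAB, mem_mid, ex10]
    · intro w
      rw [← hAB, mem_mid, ex11]

/-! ### Polynomial time -/

theorem allWords_poly : ∀ (k : ℕ) {α : Type} [TEnc α] {S : α → List ℕ}, Poly S →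
    Poly (fun a => allWords (S a) k)
  | 0, α, _, S, hS => NPC.Poly.const _
  | k + 1, α, _, S, hS => by
    have h1 : Poly (fun p : α × ℕ => allWords (S p.1) k) :=
      allWords_poly k (hS.comp (NPC.Poly.fst NPC.Poly.id))
    have h2 : Poly (fun p : α × ℕ => (allWords (S p.1) k).map fun w => p.2 :: w) := by
      fun_prop
    exact NPC.Poly.cons (NPC.Poly.const _) (NPC.Poly.flatMap
      (F := fun a x => (allWords (S a) k).map fun w => x :: w) hS h2)

theorem V_poly {α : Type} [TEnc α] {f : α → ℕ} (hf : Poly f) : Poly (fun a => V (f a)) := by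
  unfold V
  fun_prop

theorem Cl_poly {α : Type} [TEnc α] {f : α → ℕ} (hf : Poly f) : Poly (fun a => Cl (f a)) := by
  unfold Cl
  fun_prop

attribute [fun_prop] V_poly Cl_poly

theorem P_poly {α : Type} [TEnc α] {f : α → ℕ} (hf : Poly f) : Poly (fun a => P (f a)) := by
  unfold P
  fun_prop

theorem sg_poly {α : Type} [TEnc α] {f : α → Bool × ℕ} (hf : Poly f) :
    Poly (fun a => sg (f a)) := by
  unfold sg
  fun_prop

theorem rng_poly {α : Type} [TEnc α] {φ : α → Φ} (hφ : Poly φ) :
    Poly (fun a => List.range (3 * (φ a).length)) :=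
  UPoly.range (UPoly.mul (UPoly.const 3) (UPoly.length hφ))

theorem rng_poly' {α : Type} [TEnc α] {φ : α → Φ} (hφ : Poly φ) :
    Poly (fun a => List.range (φ a).length) :=
  UPoly.range (UPoly.length hφ)

attribute [fun_prop] P_poly sg_poly rng_poly rng_poly'

theorem Sg_poly : Poly Sg := by
  unfold Sg
  fun_prop

theorem ex_poly (i j : Bool) : Poly (fun φ => ex φ i j) := by
  unfold ex
  cases i <;> cases j <;> simp only [Bool.false_eq_true, if_false, if_true] <;> fun_prop

theorem mid_poly (i j : Bool) : Poly (fun φ => mid φ i j) := by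
  unfold mid
  have h1 : Poly (fun φ => allWords (Sg φ) 22) := allWords_poly 22 Sg_poly
  have h2 := ex_poly i j
  fun_prop

theorem part_poly (i j : Bool) : Poly (fun φ => part φ i j) := by
  unfold part
  have h2 := mid_poly i j
  fun_prop

theorem inst_poly : Poly inst := by
  unfold inst words
  have h1 := part_poly false false
  have h2 := part_poly false true
  have h3 := part_poly true false
  have h4 := part_poly true true
  have h5 := Sg_poly
  fun_prop

/-- Hardness, already for valid instances. -/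
theorem hardPr_fact : HardPr Valid HasFactorization :=
  hardPr_two.trans inst_poly (fun φ _ => valid_inst φ) (fun φ _ => inst_iff φ)

end Pool.Agent.Q324.FA
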