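import Pool.Agent.Q324.FA.Env

/-!
# The system of languages which encodes a formula
-/

namespace Pool.Agent.Q324.FA

/-- letter of a variable -/
def V (x : ℕ) : ℕ := 2 * x + 6

/-- letter of a clause -/
def Cl (i : ℕ) : ℕ := 2 * i + 5

/-- the prefix of the word of clause `i / 3` which selects its literal number `i % 3` -/
def P (i : ℕ) : List ℕ :=
  if i % 3 = 0 then [Cl i] else if i % 3 = 1 then [Cl (i - 1), Cl i]
  else [Cl (i - 2), Cl (i - 1), Cl i]

/-- the suffix which has to be present if the literal is false -/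
def sg (p : Bool × ℕ) : List ℕ := if p.1 = true then [V p.2] else [4, V p.2]

theorem P0 (j : ℕ) : P (3 * j) = [Cl (3 * j)] := by
  unfold P
  rw [if_pos (by omega)]

theorem P1 (j : ℕ) : P (3 * j + 1) = [Cl (3 * j), Cl (3 * j + 1)] := by
  unfold P
  rw [if_neg (by omega), if_pos (by omega)]
  rfl

theorem P2 (j : ℕ) : P (3 * j + 2) = [Cl (3 * j), Cl (3 * j + 1), Cl (3 * j + 2)] := by
  unfold P
  rw [if_neg (by omega), if_neg (by omega)]
  rfl

theorem idx (i : ℕ) : ∃ j, i = 3 * j ∨ i = 3 * j + 1 ∨ i = 3 * j + 2 := ⟨i / 3, by omega⟩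

theorem P_odd (i : ℕ) : ∀ x ∈ P i, x % 2 = 1 := by
  obtain ⟨j, rfl | rfl | rfl⟩ := idx i
  · rw [P0]; simp [Cl] <;> omega
  · rw [P1]; simp [Cl] <;> omega
  · rw [P2]; simp [Cl] <;> omega

theorem P_ne (i : ℕ) : P i ≠ [] := by
  obtain ⟨j, rfl | rfl | rfl⟩ := idx i
  · rw [P0]; simp
  · rw [P1]; simp
  · rw [P2]; simp

theorem P_length (i : ℕ) : (P i).length ≤ 3 := by
  obtain ⟨j, rfl | rfl | rfl⟩ := idx i
  · rw [P0]; simp
  · rw [P1]; simp
  · rw [P2]; simp

theorem P_inj {i i' : ℕ} (h : P i = P i') : i = i' := by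
  obtain ⟨j, rfl | rfl | rfl⟩ := idx i <;> obtain ⟨j', rfl | rfl | rfl⟩ := idx i' <;>
    simp only [P0, P1, P2, Cl, List.cons.injEq, reduceCtorEq, and_false, and_true] at h <;> omega

/-- A suffix of `P i'` equal to `P i` is everything. -/
theorem P_suffix {i i' : ℕ} (h : P i <:+ P i') : i = i' := by
  obtain ⟨a, ha⟩ := h
  have key : a = [] := by
    obtain ⟨j, rfl | rfl | rfl⟩ := idx i <;> obtain ⟨j', rfl | rfl | rfl⟩ := idx i' <;>
      simp only [P0, P1, P2] at ha
    all_goals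
      rcases a with _ | ⟨x, _ | ⟨y, _ | ⟨z, _ | ⟨t, a⟩⟩⟩⟩ <;>
      simp only [Cl, List.nil_append, List.cons_append, List.cons.injEq, reduceCtorEq, and_false,
        and_true, List.append_eq_nil_iff, List.nil_eq] at ha ⊢ <;> omega
  rw [key, List.nil_append] at ha
  exact P_inj ha

theorem sg_even (p : Bool × ℕ) : ∀ x ∈ sg p, x % 2 = 0 := by
  unfold sg
  split_ifs
  · simp [V] <;> omega
  · simp [V] <;> omega

theorem sg_ne (p : Bool × ℕ) : sg p ≠ [] := by
  unfold sg
  split_ifs <;> simp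

theorem sg_length (p : Bool × ℕ) : (sg p).length ≤ 2 := by
  unfold sg
  split_ifs <;> simp

/-- A word is determined by its odd part and its even part. -/
theorem split_unique {u v u' v' : List ℕ} (hu : ∀ x ∈ u, x % 2 = 1) (hv : ∀ x ∈ v, x % 2 = 0)
    (hu' : ∀ x ∈ u', x % 2 = 1) (hv' : ∀ x ∈ v', x % 2 = 0) (h : u ++ v = u' ++ v') :
    u = u' ∧ v = v' := by
  have key : ∀ a b : List ℕ, (∀ x ∈ a, x % 2 = 1) → (∀ x ∈ b, x % 2 = 0) →
      (a ++ b).filter (fun x => decide (x % 2 = 1)) = a := by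
    intro a b ha hb
    rw [List.filter_append, List.filter_eq_self.2 (by simpa using ha), List.filter_eq_nil_iff.2
      (by intro x hx; have := hb x hx; simp [this]), List.append_nil]
  have h1 : u = u' := by rw [← key u v hu hv, h, key u' v' hu' hv']
  subst h1
  exact ⟨rfl, List.append_cancel_left h⟩

section

variable (m : ℕ) (l : ℕ → Bool × ℕ) (τ : ℕ → Bool) (S : List ℕ)

/-- the words missing in the first row -/
def SA (w : List ℕ) : Prop :=
  (∃ x, w = [4, V x]) ∨ (∃ i < 3 * m, τ (l i).2 ≠ (l i).1 ∧ w = P i) ∨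
    ∃ i < 3 * m, ∃ a, a ≠ [] ∧ a <+: sg (l i) ∧ w = P i ++ a

/-- the words missing in the first column -/
def SB (w : List ℕ) : Prop :=
  (∃ j < m, w = P (3 * j + 2)) ∨ (∃ x, w = sg (τ x, x)) ∨
    ∃ i < 3 * m, ∃ a, a ≠ [] ∧ a <:+ P i ∧ w = a ++ sg (l i)

/-- the conflict words -/
def Conf (w : List ℕ) : Prop := ∃ i < 3 * m, w = P i ++ sg (l i)

/-- words over the alphabet -/
def Ok (k : ℕ) (w : List ℕ) : Prop := w.length ≤ k ∧ ∀ x ∈ w, x ∈ S

def A1 (w : List ℕ) : Prop := (w.length ≤ 11 ∧ ∀ x ∈ w, x ∈ S) ∧ ¬ SA m l τ w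

def B1 (w : List ℕ) : Prop := (w.length ≤ 11 ∧ ∀ x ∈ w, x ∈ S) ∧ ¬ SB m l τ w

def A2 (w : List ℕ) : Prop := (w.length ≤ 11 ∧ ∀ x ∈ w, x ∈ S) ∧ ¬ ∃ i < 3 * m, w = P i

def B2 (w : List ℕ) : Prop := (w.length ≤ 11 ∧ ∀ x ∈ w, x ∈ S) ∧ ¬ ∃ x, w = [V x] ∨ w = [4, V x]

variable {m l τ S}

theorem pref_length {a : List ℕ} {p : Bool × ℕ} (h : a <+: sg p) : a.length ≤ 2 :=
  h.length_le.trans (sg_length p)

theorem pref_even {a : List ℕ} {p : Bool × ℕ} (h : a <+: sg p) : ∀ x ∈ a, x % 2 = 0 :=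
  fun x hx => sg_even p x (h.subset hx)

theorem suff_length {a : List ℕ} {i : ℕ} (h : a <:+ P i) : a.length ≤ 3 :=
  h.length_le.trans (P_length i)

theorem suff_odd {a : List ℕ} {i : ℕ} (h : a <:+ P i) : ∀ x ∈ a, x % 2 = 1 :=
  fun x hx => P_odd i x (h.subset hx)

theorem SA_length {w : List ℕ} (h : SA m l τ w) : w.length ≤ 5 := by
  rcases h with ⟨x, rfl⟩ | ⟨i, _, _, rfl⟩ | ⟨i, _, a, _, ha, rfl⟩
  · simp
  · exact (P_length i).trans (by omega)
  · have h1 := P_length i
    have h2 := pref_length ha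
    rw [List.length_append]
    omega

theorem SB_length {w : List ℕ} (h : SB m l τ w) : w.length ≤ 5 := by
  rcases h with ⟨j, _, rfl⟩ | ⟨x, rfl⟩ | ⟨i, _, a, _, ha, rfl⟩
  · exact (P_length _).trans (by omega)
  · exact (sg_length _).trans (by omega)
  · have h1 := sg_length (l i)
    have h2 := suff_length ha
    rw [List.length_append]
    omega

theorem Conf_length {w : List ℕ} (h : Conf m l w) : w.length ≤ 5 := by
  obtain ⟨i, _, rfl⟩ := h
  have h1 := sg_length (l i)
  have h2 := P_length i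
  rw [List.length_append]
  omega

/-- parity arguments -/
theorem odd_ne_even {u v : List ℕ} (hu : ∀ x ∈ u, x % 2 = 1) (hv : ∀ x ∈ v, x % 2 = 0)
    (hne : u ≠ []) (h : u = v) : False := by
  cases u with
  | nil => exact hne rfl
  | cons x u =>
    have h1 := hu x (by simp)
    have h2 := hv x (by rw [← h]; simp)
    omega

theorem not_SA_nil : ¬ SA m l τ [] := by
  rintro (⟨x, h⟩ | ⟨i, _, _, h⟩ | ⟨i, _, a, _, _, h⟩)
  · simp at h
  · exact P_ne i h.symm
  · exact P_ne i (List.append_eq_nil_iff.1 h.symm).1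

theorem not_SB_nil : ¬ SB m l τ [] := by
  rintro (⟨j, _, h⟩ | ⟨x, h⟩ | ⟨i, _, a, _, _, h⟩)
  · exact P_ne _ h.symm
  · exact sg_ne _ h.symm
  · exact sg_ne _ (List.append_eq_nil_iff.1 h.symm).2

/-- an odd nonempty word in `SB` is a clause word -/
theorem SB_odd {w : List ℕ} (hw : ∀ x ∈ w, x % 2 = 1) (hne : w ≠ []) (h : SB m l τ w) :
    ∃ j < m, w = P (3 * j + 2) := by
  rcases h with h | ⟨x, rfl⟩ | ⟨i, _, a, _, _, rfl⟩
  · exact h
  · exact absurd rfl (fun h => odd_ne_even hw (sg_even _) hne h)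
  · exfalso
    have : ∀ x ∈ sg (l i), x % 2 = 1 := fun x hx => hw x (List.mem_append_right _ hx)
    exact odd_ne_even this (sg_even _) (sg_ne _) rfl

/-- an odd word in `SA` is the prefix of a false literal -/
theorem SA_odd {w : List ℕ} (hw : ∀ x ∈ w, x % 2 = 1) (h : SA m l τ w) :
    ∃ i < 3 * m, τ (l i).2 ≠ (l i).1 ∧ w = P i := by
  rcases h with ⟨x, rfl⟩ | h | ⟨i, _, a, ha, ha', rfl⟩
  · have := hw 4 (by simp)
    omega
  · exact h
  · exfalso
    have : ∀ x ∈ a, x % 2 = 1 := fun x hx => hw x (List.mem_append_right _ hx)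
    exact odd_ne_even this (pref_even ha') ha rfl

/-- a word in `SB` starting with an even letter is `sg` of a true literal -/
theorem SB_even {w : List ℕ} (hw : ∀ x ∈ w, x % 2 = 0) (h : SB m l τ w) :
    ∃ x, w = sg (τ x, x) := by
  rcases h with ⟨j, _, rfl⟩ | h | ⟨i, _, a, ha, ha', rfl⟩
  · exact (odd_ne_even (P_odd _) hw (P_ne _) rfl).elim
  · exact h
  · exfalso
    have : ∀ x ∈ a, x % 2 = 0 := fun x hx => hw x (List.mem_append_left _ hx)
    exact odd_ne_even (suff_odd ha') this ha rfl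

/-- a word in `SA` with only even letters is a variable word -/
theorem SA_even {w : List ℕ} (hw : ∀ x ∈ w, x % 2 = 0) (h : SA m l τ w) :
    ∃ x, w = [4, V x] := by
  rcases h with h | ⟨i, _, _, rfl⟩ | ⟨i, _, a, _, _, rfl⟩
  · exact h
  · exact (odd_ne_even (P_odd _) hw (P_ne _) rfl).elim
  · exfalso
    have : ∀ x ∈ P i, x % 2 = 0 := fun x hx => hw x (List.mem_append_left _ hx)
    exact odd_ne_even (P_odd i) this (P_ne i) rfl

/-- The product of the first row and the first column. -/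
theorem prod11 (hsat : ∀ j < m, ∃ t < 3, τ (l (3 * j + t)).2 = (l (3 * j + t)).1) (w : List ℕ) :
    (w.length ≤ 22 ∧ (∀ x ∈ w, x ∈ S) ∧ ¬ Conf m l w) ↔
      ∃ u v, A1 m l τ S u ∧ B1 m l τ S v ∧ u ++ v = w := by
  refine env (fun w h => h.1) (fun w h => h.1) ?_ ?_ ?_ (fun w h => Conf_length h) ?_ ?_ w
  · intro w h1 h2 h3
    exact ⟨⟨h2, h3⟩, fun h => by have := SA_length h; omega⟩
  · intro w h1 h2 h3
    exact ⟨⟨h2, h3⟩, fun h => by have := SB_length h; omega⟩
  · exact ⟨by simp, not_SB_nil⟩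
  · rintro u v hu hv ⟨i, hi, h⟩
    rcases List.append_eq_append_iff.1 h with ⟨a, h1, h2⟩ | ⟨a, h1, h2⟩
    · -- P i = u ++ a, v = a ++ sg
      rcases eq_or_ne a [] with rfl | ha
      · rw [List.append_nil] at h1
        rw [List.nil_append] at h2
        by_cases ht : τ (l i).2 = (l i).1
        · apply hv.2
          refine Or.inr (Or.inl ⟨(l i).2, ?_⟩)
          rw [h2, ht]
        · exact hu.2 (Or.inr (Or.inl ⟨i, hi, ht, h1.symm⟩))
      · exact hv.2 (Or.inr (Or.inr ⟨i, hi, a, ha, ⟨u, h1.symm⟩, h2⟩))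
    · rcases eq_or_ne a [] with rfl | ha
      · rw [List.append_nil] at h1
        rw [List.nil_append] at h2
        by_cases ht : τ (l i).2 = (l i).1
        · apply hv.2
          refine Or.inr (Or.inl ⟨(l i).2, ?_⟩)
          rw [← h2, ht]
        · exact hu.2 (Or.inr (Or.inl ⟨i, hi, ht, h1⟩))
      · exact hu.2 (Or.inr (Or.inr ⟨i, hi, a, ha, ⟨v, h2.symm⟩, h1⟩))
  · intro w hl hS hconf
    by_cases hA : SA m l τ w
    · by_cases hB : SB m l τ w
      · rcases hA with ⟨x, rfl⟩ | ⟨i, hi, hfalse, rfl⟩ | ⟨i, hi, a, ha, ha', rfl⟩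
        · -- the variable word
          have hev : ∀ y ∈ [4, V x], y % 2 = 0 := by simp [V] <;> omega
          obtain ⟨x', hx'⟩ := SB_even hev hB
          have hx : τ x = false := by
            unfold sg at hx'
            split_ifs at hx' with hτ
            · simp at hx'
            · simp only [List.cons.injEq, and_true, V, true_and] at hx'
              have : x = x' := by omega
              subst this
              simpa using hτ
          refine ⟨[4], [V x], ⟨⟨by simp, fun y hy => hS y (by simp at hy ⊢; exact Or.inl hy)⟩, ?_⟩,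
            ⟨⟨by simp, fun y hy => hS y (by simp at hy ⊢; exact Or.inr hy)⟩, ?_⟩, rfl⟩
          · intro h
            obtain ⟨y, hy⟩ := SA_even (by simp) h
            simp at hy
          · intro h
            obtain ⟨y, hy⟩ := SB_even (by simp [V] <;> omega) h
            unfold sg at hy
            split_ifs at hy with hτ
            · simp only [List.cons.injEq, and_true, V] at hy
              have : x = y := by omega
              subst this
              simp only at hτ
              rw [hx] at hτ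
              exact absurd hτ (by simp)
            · simp at hy
        · -- the clause word
          obtain ⟨j, hj, hP⟩ := SB_odd (P_odd i) (P_ne i) hB
          have hij := P_inj hP
          subst hij
          obtain ⟨t, ht, htrue⟩ := hsat j hj
          have ht2 : t ≠ 2 := by
            rintro rfl
            exact hfalse htrue
          have hA1 : ¬ SA m l τ (P (3 * j + t)) := by
            intro h
            obtain ⟨i', _, h1, h2⟩ := SA_odd (P_odd _) h
            have := P_inj h2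
            subst this
            exact h1 htrue
          have h01 : t = 0 ∨ t = 1 := by omega
          rcases h01 with rfl | rfl
          · refine ⟨P (3 * j), [Cl (3 * j + 1), Cl (3 * j + 2)], ⟨⟨?_, ?_⟩, hA1⟩, ⟨⟨?_, ?_⟩, ?_⟩, ?_⟩
            · exact (P_length _).trans (by omega)
            · intro y hy
              apply hS
              rw [P0] at hy
              rw [P2]
              simp at hy ⊢
              exact Or.inl hy
            · simp
            · intro y hy
              apply hS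
              rw [P2]
              simp at hy ⊢
              exact Or.inr hy
            · intro h
              obtain ⟨j', _, h2⟩ := SB_odd (by simp [Cl] <;> omega) (by simp) h
              rw [P2] at h2
              simp at h2
            · rw [P0, P2]
              rfl
          · refine ⟨P (3 * j + 1), [Cl (3 * j + 2)], ⟨⟨?_, ?_⟩, hA1⟩, ⟨⟨?_, ?_⟩, ?_⟩, ?_⟩
            · exact (P_length _).trans (by omega)
            · intro y hy
              apply hS
              rw [P1] at hy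
              rw [P2]
              simp at hy ⊢
              tauto
            · simp
            · intro y hy
              apply hS
              rw [P2]
              simp at hy ⊢
              exact Or.inr (Or.inr hy)
            · intro h
              obtain ⟨j', _, h2⟩ := SB_odd (by simp [Cl] <;> omega) (by simp) h
              rw [P2] at h2
              simp at h2
            · rw [P1, P2]
              rfl
        · -- prefixes of conflict words
          exfalso
          rcases hB with ⟨j, _, h⟩ | ⟨x, h⟩ | ⟨i', hi', a', ha1, ha2, h⟩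
          · have : ∀ x ∈ a, x % 2 = 1 := fun x hx => P_odd _ x (by
              rw [← h]
              exact List.mem_append_right _ hx)
            exact odd_ne_even this (pref_even ha') ha rfl
          · have : ∀ x ∈ P i, x % 2 = 0 := fun y hy => sg_even _ y (by
              rw [← h]
              exact List.mem_append_left _ hy)
            exact odd_ne_even (P_odd i) this (P_ne i) rfl
          · obtain ⟨h1, h2⟩ := split_unique (P_odd i) (pref_even ha') (suff_odd ha2)
              (sg_even _) h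
            rw [← h1] at ha2
            have hii := P_suffix ha2
            subst hii
            exact hconf ⟨i, hi, by rw [h2]⟩
      · exact ⟨[], w, ⟨⟨by simp, by simp⟩, not_SA_nil⟩, ⟨⟨by omega, hS⟩, hB⟩, rfl⟩
    · exact ⟨w, [], ⟨⟨by omega, hS⟩, hA⟩, ⟨⟨by simp, by simp⟩, not_SB_nil⟩, by simp⟩

theorem prod12 (w : List ℕ) :
    (w.length ≤ 22 ∧ (∀ x ∈ w, x ∈ S) ∧ ¬ ∃ x, w = [4, V x]) ↔
      ∃ u v, A1 m l τ S u ∧ B2 S v ∧ u ++ v = w := by
  refine env (A := A1 m l τ S) (B := B2 S) (bad := fun w => ∃ x, w = [4, V x]) (fun w h => h.1) (fun w h => h.1) ?_ ?_ ?_ ?_ ?_ ?_ w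
  · intro w h1 h2 h3
    exact ⟨⟨h2, h3⟩, fun h => by have := SA_length h; omega⟩
  · intro w h1 h2 h3
    refine ⟨⟨h2, h3⟩, ?_⟩
    rintro ⟨x, rfl | rfl⟩ <;> simp at h1
  · exact ⟨by simp, by simp⟩
  · rintro w ⟨x, rfl⟩
    simp
  · rintro u v hu hv ⟨x, h⟩
    rcases u with _ | ⟨a, _ | ⟨b, u⟩⟩
    · exact hv.2 ⟨x, Or.inr h⟩
    · simp only [List.cons_append, List.nil_append, List.cons.injEq] at h
      exact hv.2 ⟨x, Or.inl h.2⟩
    · simp only [List.cons_append, List.cons.injEq, List.append_eq_nil_iff] at h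
      obtain ⟨rfl, rfl, rfl, rfl⟩ := h
      exact hu.2 (Or.inl ⟨x, rfl⟩)
  · intro w hl hS hbad
    by_cases hA : SA m l τ w
    · refine ⟨[], w, ⟨⟨by simp, by simp⟩, not_SA_nil⟩, ⟨⟨by omega, hS⟩, ?_⟩, rfl⟩
      rintro ⟨x, rfl | rfl⟩
      · obtain ⟨y, hy⟩ := SA_even (by simp [V] <;> omega) hA
        simp at hy
      · exact hbad ⟨x, rfl⟩
    · exact ⟨w, [], ⟨⟨by omega, hS⟩, hA⟩, ⟨by simp, by simp⟩, by simp⟩

/-- nonempty prefixes of clause words -/
theorem prefix_P2 {j : ℕ} {u v : List ℕ} (hu : u ≠ []) (h : u ++ v = P (3 * j + 2)) :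
    ∃ t < 3, u = P (3 * j + t) := by
  rw [P2] at h
  rcases u with _ | ⟨a, _ | ⟨b, _ | ⟨c, u⟩⟩⟩
  · exact absurd rfl hu
  · simp only [List.cons_append, List.nil_append, List.cons.injEq] at h
    exact ⟨0, by omega, by rw [h.1, Nat.add_zero, P0]⟩
  · simp only [List.cons_append, List.nil_append, List.cons.injEq] at h
    exact ⟨1, by omega, by rw [h.1, h.2.1, P1]⟩
  · simp only [List.cons_append, List.cons.injEq, List.append_eq_nil_iff] at h
    exact ⟨2, by omega, by rw [h.1, h.2.1, h.2.2.1, h.2.2.2.1, P2]⟩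

theorem prod21 (w : List ℕ) :
    (w.length ≤ 22 ∧ (∀ x ∈ w, x ∈ S) ∧ ¬ ∃ j < m, w = P (3 * j + 2)) ↔
      ∃ u v, A2 m S u ∧ B1 m l τ S v ∧ u ++ v = w := by
  refine env (A := A2 m S) (B := B1 m l τ S) (bad := fun w => ∃ j < m, w = P (3 * j + 2))
    (fun w h => h.1) (fun w h => h.1) ?_ ?_ ?_ ?_ ?_ ?_ w
  · intro w h1 h2 h3
    refine ⟨⟨h2, h3⟩, ?_⟩
    rintro ⟨i, _, rfl⟩
    have := P_length i
    omega
  · intro w h1 h2 h3
    exact ⟨⟨h2, h3⟩, fun h => by have := SB_length h; omega⟩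
  · exact ⟨by simp, not_SB_nil⟩
  · rintro w ⟨j, _, rfl⟩
    exact (P_length _).trans (by omega)
  · rintro u v hu hv ⟨j, hj, h⟩
    rcases eq_or_ne u [] with rfl | hne
    · exact hv.2 (Or.inl ⟨j, hj, h⟩)
    · obtain ⟨t, ht, rfl⟩ := prefix_P2 hne h
      exact hu.2 ⟨_, by omega, rfl⟩
  · intro w hl hS hbad
    by_cases hA : ∃ i < 3 * m, w = P i
    · refine ⟨[], w, ⟨⟨by simp, by simp⟩, ?_⟩, ⟨⟨by omega, hS⟩, ?_⟩, rfl⟩
      · rintro ⟨i, _, h⟩
        exact P_ne i h.symm
      · intro hB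
        obtain ⟨i, hi, rfl⟩ := hA
        exact hbad (SB_odd (P_odd i) (P_ne i) hB)
    · exact ⟨w, [], ⟨⟨by omega, hS⟩, hA⟩, ⟨⟨by simp, by simp⟩, not_SB_nil⟩, by simp⟩

theorem prod22 (w : List ℕ) :
    (w.length ≤ 22 ∧ (∀ x ∈ w, x ∈ S) ∧ ¬ False) ↔
      ∃ u v, A2 m S u ∧ B2 S v ∧ u ++ v = w := by
  refine env (bad := fun _ => False) (fun w h => h.1) (fun w h => h.1) ?_ ?_ ?_
    (fun w h => h.elim) (fun u v _ _ h => h) ?_ w
  · intro w h1 h2 h3
    refine ⟨⟨h2, h3⟩, ?_⟩
    rintro ⟨i, _, rfl⟩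
    have := P_length i
    omega
  · intro w h1 h2 h3
    refine ⟨⟨h2, h3⟩, ?_⟩
    rintro ⟨x, rfl | rfl⟩ <;> simp at h1
  · exact ⟨by simp, by simp⟩
  · intro w hl hS _
    by_cases hA : ∃ i < 3 * m, w = P i
    · refine ⟨[], w, ⟨⟨by simp, by simp⟩, ?_⟩, ⟨⟨by omega, hS⟩, ?_⟩, rfl⟩
      · rintro ⟨i, _, h⟩
        exact P_ne i h.symm
      · obtain ⟨i, hi, rfl⟩ := hA
        rintro ⟨x, h | h⟩
        · exact odd_ne_even (P_odd i) (by simp [V] <;> omega) (P_ne i) h
        · exact odd_ne_even (P_odd i) (by simp [V] <;> omega) (P_ne i) h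
    · exact ⟨w, [], ⟨⟨by omega, hS⟩, hA⟩, ⟨by simp, by simp⟩, by simp⟩

/-- **Soundness.** -/
theorem sound {A₁ A₂ B₁ B₂ : List ℕ → Prop} (h4 : 4 ∈ S) (hV : ∀ i < 3 * m, V (l i).2 ∈ S)
    (hC : ∀ i < 3 * m, Cl i ∈ S)
    (h11 : ∀ w, (w.length ≤ 22 ∧ (∀ x ∈ w, x ∈ S) ∧ ¬ Conf m l w) ↔
      ∃ u v, A₁ u ∧ B₁ v ∧ u ++ v = w)
    (h12 : ∀ w, (w.length ≤ 22 ∧ (∀ x ∈ w, x ∈ S) ∧ ¬ ∃ x, w = [4, V x]) ↔
      ∃ u v, A₁ u ∧ B₂ v ∧ u ++ v = w)
    (h21 : ∀ w, (w.length ≤ 22 ∧ (∀ x ∈ w, x ∈ S) ∧ ¬ ∃ j < m, w = P (3 * j + 2)) ↔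
      ∃ u v, A₂ u ∧ B₁ v ∧ u ++ v = w)
    (h22 : ∀ w, (w.length ≤ 22 ∧ (∀ x ∈ w, x ∈ S) ∧ ¬ False) ↔
      ∃ u v, A₂ u ∧ B₂ v ∧ u ++ v = w) :
    ∃ τ : ℕ → Bool, ∀ j < m, ∃ t < 3, τ (l (3 * j + t)).2 = (l (3 * j + t)).1 := by
  classical
  have he : A₂ [] ∧ B₂ [] := by
    obtain ⟨u, v, hu, hv, h⟩ := (h22 []).1 ⟨by simp, by simp, id⟩
    obtain ⟨rfl, rfl⟩ := List.append_eq_nil_iff.1 h
    exact ⟨hu, hv⟩
  refine ⟨fun x => decide (¬ B₁ [V x]), fun j hj => ?_⟩
  -- the clause word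
  have hw : (P (3 * j + 2)).length ≤ 22 ∧ (∀ x ∈ P (3 * j + 2), x ∈ S) ∧
      ¬ Conf m l (P (3 * j + 2)) := by
    refine ⟨(P_length _).trans (by omega), ?_, ?_⟩
    · rw [P2]
      intro x hx
      simp only [List.mem_cons, List.not_mem_nil, or_false] at hx
      rcases hx with rfl | rfl | rfl
      · exact hC _ (by omega)
      · exact hC _ (by omega)
      · exact hC _ (by omega)
    · rintro ⟨i, _, h⟩
      have : ∀ x ∈ sg (l i), x % 2 = 1 := fun x hx => P_odd _ x (by
        rw [h]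
        exact List.mem_append_right _ hx)
      exact odd_ne_even this (sg_even _) (sg_ne _) rfl
  obtain ⟨u, v, hu, hv, huv⟩ := (h11 _).1 hw
  have hune : u ≠ [] := by
    rintro rfl
    rw [List.nil_append] at huv
    subst huv
    exact ((h21 (P (3 * j + 2))).2 ⟨[], _, he.1, hv, rfl⟩).2.2 ⟨j, hj, rfl⟩
  obtain ⟨t, ht, rfl⟩ := prefix_P2 hune huv
  refine ⟨t, ht, ?_⟩
  have hi : 3 * j + t < 3 * m := by omega
  have hno : ¬ B₁ (sg (l (3 * j + t))) := fun hB =>
    ((h11 _).2 ⟨_, _, hu, hB, rfl⟩).2.2 ⟨_, hi, rfl⟩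
  rcases hl : l (3 * j + t) with ⟨b, x⟩
  rw [hl] at hno
  simp only
  cases b with
  | true =>
    unfold sg at hno
    rw [if_pos rfl] at hno
    simpa using hno
  | false =>
    unfold sg at hno
    rw [if_neg (by simp)] at hno
    simp only [decide_eq_false_iff_not, not_not]
    have hw2 : ([4, V x] : List ℕ).length ≤ 22 ∧ (∀ y ∈ [4, V x], y ∈ S) ∧
        ¬ Conf m l [4, V x] := by
      refine ⟨by simp, ?_, ?_⟩
      · intro y hy
        simp only [List.mem_cons, List.not_mem_nil, or_false] at hy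
        rcases hy with rfl | rfl
        · exact h4
        · have := hV _ hi
          rwa [hl] at this
      · rintro ⟨i, _, h⟩
        have : ∀ y ∈ P i, y % 2 = 0 := fun y hy => by
          have : y ∈ [4, V x] := by
            rw [h]
            exact List.mem_append_left _ hy
          simp only [List.mem_cons, List.not_mem_nil, or_false] at this
          rcases this with rfl | rfl
          · rfl
          · unfold V
            omega
        exact odd_ne_even (P_odd i) this (P_ne i) rfl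
    obtain ⟨u', v', hu', hv', huv'⟩ := (h11 _).1 hw2
    rcases u' with _ | ⟨a, _ | ⟨b, u'⟩⟩
    · rw [List.nil_append] at huv'
      subst huv'
      exact absurd hv' hno
    · simp only [List.cons_append, List.nil_append, List.cons.injEq] at huv'
      obtain ⟨_, rfl⟩ := huv'
      exact hv'
    · simp only [List.cons_append, List.cons.injEq, List.append_eq_nil_iff] at huv'
      obtain ⟨rfl, rfl, rfl, rfl⟩ := huv'
      exact (((h12 _).2 ⟨_, [], hu', he.2, rfl⟩).2.2 ⟨x, rfl⟩).elim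

end

end Pool.Agent.Q324.FA
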