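import Mathlib

/-!
# Factorization of finite languages: definitions

Letters are natural numbers. An instance consists of the alphabet (a list of letters) and of a
list of words over this alphabet.
-/

namespace Pool.Agent.Q324.FA

/-- The instance is valid: the list of words is not empty and the words are words over the
alphabet. -/
def Valid (I : List ℕ × List (List ℕ)) : Prop :=
  I.2 ≠ [] ∧ ∀ w ∈ I.2, ∀ x ∈ w, x ∈ I.1

/-- `(L₁, L₂)` is a factorization of the language of the words of the list: both are finite
languages over the alphabet and the language is the set of all `u v` with `u ∈ L₁`, `v ∈ L₂`. -/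
def IsFactorization (I : List ℕ × List (List ℕ)) (L₁ L₂ : Finset (List ℕ)) : Prop :=
  (∀ u ∈ L₁, ∀ x ∈ u, x ∈ I.1) ∧ (∀ v ∈ L₂, ∀ x ∈ v, x ∈ I.1) ∧
    ∀ w, w ∈ I.2 ↔ ∃ u ∈ L₁, ∃ v ∈ L₂, u ++ v = w

/-- The language has a nontrivial factorization: none of the factors consists of the empty word
only. -/
def HasFactorization (I : List ℕ × List (List ℕ)) : Prop :=
  ∃ L₁ L₂ : Finset (List ℕ), IsFactorization I L₁ L₂ ∧ L₁ ≠ {[]} ∧ L₂ ≠ {[]}

end Pool.Agent.Q324.FA
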