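import Pool.Agent.Q324.FA.Defs

/-!
# Products of languages which contain all long words
-/

namespace Pool.Agent.Q324.FA

/-- all words of length at most `k` over the alphabet `S` -/
def allWords (S : List ℕ) : ℕ → List (List ℕ)
  | 0 => [[]]
  | k + 1 => [] :: S.flatMap fun x => (allWords S k).map fun w => x :: w

theorem mem_allWords {S : List ℕ} : ∀ {k : ℕ} {w : List ℕ},
    w ∈ allWords S k ↔ w.length ≤ k ∧ ∀ x ∈ w, x ∈ S
  | 0, w => by
    simp only [allWords, List.mem_singleton, Nat.le_zero, List.length_eq_zero_iff]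
    constructor
    · rintro rfl
      simp
    · exact fun h => h.1
  | k + 1, w => by
    simp only [allWords, List.mem_cons, List.mem_flatMap, List.mem_map]
    constructor
    · rintro (rfl | ⟨x, hx, w, hw, rfl⟩)
      · simp
      · rw [mem_allWords] at hw
        refine ⟨by simpa using hw.1, fun y hy => ?_⟩
        rcases List.mem_cons.1 hy with rfl | hy
        · exact hx
        · exact hw.2 y hy
    · rintro ⟨h1, h2⟩
      cases w with
      | nil => exact Or.inl rfl
      | cons x w =>
        refine Or.inr ⟨x, h2 x (by simp), w, ?_, rfl⟩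
        rw [mem_allWords]
        exact ⟨by simpa using h1, fun y hy => h2 y (by simp [hy])⟩

/-- If `A` and `B` contain the empty word and all words of length `6, …, 11`, only the short words
have to be checked. -/
theorem env {S : List ℕ} {A B : List ℕ → Prop} {bad : List ℕ → Prop}
    (hA : ∀ w, A w → w.length ≤ 11 ∧ ∀ x ∈ w, x ∈ S)
    (hB : ∀ w, B w → w.length ≤ 11 ∧ ∀ x ∈ w, x ∈ S)
    (hA' : ∀ w : List ℕ, 6 ≤ w.length → w.length ≤ 11 → (∀ x ∈ w, x ∈ S) → A w)
    (hB' : ∀ w : List ℕ, 6 ≤ w.length → w.length ≤ 11 → (∀ x ∈ w, x ∈ S) → B w)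
    (hB0 : B []) (hbad : ∀ w, bad w → w.length ≤ 5)
    (h1 : ∀ u v, A u → B v → ¬ bad (u ++ v))
    (h2 : ∀ w : List ℕ, w.length ≤ 5 → (∀ x ∈ w, x ∈ S) → ¬ bad w → ∃ u v, A u ∧ B v ∧ u ++ v = w)
    (w : List ℕ) :
    (w.length ≤ 22 ∧ (∀ x ∈ w, x ∈ S) ∧ ¬ bad w) ↔ ∃ u v, A u ∧ B v ∧ u ++ v = w := by
  constructor
  · rintro ⟨hl, hS, hb⟩
    rcases Nat.lt_or_ge w.length 6 with h | h
    · exact h2 w (by omega) hS hb
    · rcases Nat.lt_or_ge w.length 12 with h' | h'
      · exact ⟨w, [], hA' w h (by omega) hS, hB0, by simp⟩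
      · have hk : max 6 (w.length - 11) ≤ w.length := by omega
        refine ⟨w.take (max 6 (w.length - 11)), w.drop (max 6 (w.length - 11)), ?_, ?_,
          List.take_append_drop _ _⟩
        · refine hA' _ ?_ ?_ fun x hx => hS x (List.mem_of_mem_take hx)
          · rw [List.length_take]
            omega
          · rw [List.length_take]
            omega
        · refine hB' _ ?_ ?_ fun x hx => hS x (List.mem_of_mem_drop hx)
          · rw [List.length_drop]
            omega
          · rw [List.length_drop]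
            omega
  · rintro ⟨u, v, hu, hv, rfl⟩
    have h3 := hA u hu
    have h4 := hB v hv
    refine ⟨by rw [List.length_append]; omega, fun x hx => ?_, h1 u v hu hv⟩
    rcases List.mem_append.1 hx with hx | hx
    · exact h3.2 x hx
    · exact h4.2 x hx

end Pool.Agent.Q324.FA
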