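import Pool.Agent.Q324.FA.Comb

/-!
# Marked languages
-/

namespace Pool.Agent.Q324.FA

/-- row markers -/
def rm (i : Bool) : ℕ := if i = true then 1 else 0

/-- column markers -/
def cm (j : Bool) : ℕ := if j = true then 3 else 2

theorem rm_lt (i : Bool) : rm i < 2 := by cases i <;> simp [rm]

theorem cm_mem (j : Bool) : 2 ≤ cm j ∧ cm j < 4 := by cases j <;> simp [cm]

theorem rm_inj {i i' : Bool} (h : rm i = rm i') : i = i' := by
  cases i <;> cases i' <;> simp [rm] at h ⊢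

theorem cm_inj {i i' : Bool} (h : cm i = cm i') : i = i' := by
  cases i <;> cases i' <;> simp [cm] at h ⊢

/-- the marked language -/
def Lg (M : Bool → Bool → List ℕ → Prop) (w : List ℕ) : Prop :=
  ∃ i j m, M i j m ∧ w = rm i :: (m ++ [cm j])

section

variable {M : Bool → Bool → List ℕ → Prop}

theorem Lg_iff {i j : Bool} {m : List ℕ} : Lg M (rm i :: (m ++ [cm j])) ↔ M i j m := by
  constructor
  · rintro ⟨i', j', m', h, he⟩
    rw [List.cons.injEq] at he
    obtain ⟨h1, h2⟩ := List.append_inj' he.2 (by simp)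
    simp only [List.cons.injEq, and_true] at h2
    rw [rm_inj he.1, cm_inj h2, h1]
    exact h
  · intro h
    exact ⟨i, j, m, h, rfl⟩

/-- A nontrivial factorization of the marked language factors all parts. -/
theorem of_factorization (hM : ∀ i j m, M i j m → ∀ x ∈ m, 4 ≤ x) (hne : ∀ i j, M i j [])
    {L₁ L₂ : Finset (List ℕ)} (h : ∀ w, Lg M w ↔ ∃ u ∈ L₁, ∃ v ∈ L₂, u ++ v = w)
    (h1 : L₁ ≠ {[]}) (h2 : L₂ ≠ {[]}) :
    ∃ A B : Bool → List ℕ → Prop, ∀ i j w, M i j w ↔ ∃ u v, A i u ∧ B j v ∧ u ++ v = w := by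
  obtain ⟨u₀, hu₀, v₀, hv₀, -⟩ := (h _).1 (Lg_iff.2 (hne false false))
  -- the letters of words of the language
  have tail_ge : ∀ w, Lg M w → ∀ x ∈ w.tail, 2 ≤ x := by
    rintro w ⟨i, j, m, hm, rfl⟩ x hx
    simp only [List.tail_cons, List.mem_append, List.mem_singleton] at hx
    rcases hx with hx | rfl
    · exact le_trans (by norm_num) (hM i j m hm x hx)
    · exact (cm_mem j).1
  have init_ge : ∀ w, Lg M w → ∀ x ∈ w.dropLast, x < 2 ∨ 4 ≤ x := by
    rintro w ⟨i, j, m, hm, rfl⟩ x hx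
    have e : (rm i :: (m ++ [cm j])).dropLast = rm i :: m := by
      rw [← List.cons_append, List.dropLast_concat]
    rw [e] at hx
    rcases List.mem_cons.1 hx with rfl | hx
    · exact Or.inl (rm_lt i)
    · exact Or.inr (hM i j m hm x hx)
  have n1 : [] ∉ L₁ := by
    intro h0
    have : ∃ u ∈ L₁, u ≠ [] := by
      by_contra hcon
      push Not at hcon
      exact h1 (Finset.eq_singleton_iff_unique_mem.2 ⟨h0, hcon⟩)
    obtain ⟨u, hu, hune⟩ := this
    have e1 : Lg M v₀ := (h v₀).2 ⟨[], h0, v₀, hv₀, rfl⟩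
    have e2 : Lg M (u ++ v₀) := (h _).2 ⟨u, hu, v₀, hv₀, rfl⟩
    obtain ⟨i, j, m, _, rfl⟩ := e1
    cases u with
    | nil => exact hune rfl
    | cons x u =>
      have := tail_ge _ e2 (rm i) (by simp)
      have := rm_lt i
      omega
  have n2 : [] ∉ L₂ := by
    intro h0
    have : ∃ v ∈ L₂, v ≠ [] := by
      by_contra hcon
      push Not at hcon
      exact h2 (Finset.eq_singleton_iff_unique_mem.2 ⟨h0, hcon⟩)
    obtain ⟨v, hv, hvne⟩ := this
    have e1 : Lg M u₀ := (h u₀).2 ⟨u₀, hu₀, [], h0, by simp⟩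
    have e2 : Lg M (u₀ ++ v) := (h _).2 ⟨u₀, hu₀, v, hv, rfl⟩
    obtain ⟨i, j, m, _, rfl⟩ := e1
    have hmem : cm j ∈ ((rm i :: (m ++ [cm j])) ++ v).dropLast := by
      rw [List.dropLast_append_of_ne_nil hvne]
      simp
    have := init_ge _ e2 (cm j) hmem
    have := cm_mem j
    omega
  refine ⟨fun i u => rm i :: u ∈ L₁, fun j v => v ++ [cm j] ∈ L₂, fun i j w => ?_⟩
  constructor
  · intro hw
    obtain ⟨u, hu, v, hv, huv⟩ := (h _).1 (Lg_iff.2 hw)
    cases u with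
    | nil => exact absurd hu n1
    | cons x u =>
      rw [List.cons_append, List.cons.injEq] at huv
      obtain ⟨rfl, huv⟩ := huv
      rcases List.eq_nil_or_concat v with rfl | ⟨v', y, rfl⟩
      · exact absurd hv n2
      · rw [List.concat_eq_append] at hv huv
        rw [← List.append_assoc] at huv
        obtain ⟨e1, e2⟩ := List.append_inj' huv (by simp)
        simp only [List.cons.injEq, and_true] at e2
        subst e2
        exact ⟨u, v', hu, hv, e1⟩
  · rintro ⟨u, v, hu, hv, rfl⟩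
    have : Lg M (rm i :: ((u ++ v) ++ [cm j])) :=
      (h _).2 ⟨_, hu, _, hv, by simp⟩
    exact Lg_iff.1 this

/-- Factorizations of all parts give a nontrivial factorization. -/
theorem to_factorization (A B : Bool → Finset (List ℕ))
    (h : ∀ i j w, M i j w ↔ ∃ u ∈ A i, ∃ v ∈ B j, u ++ v = w) (hA : (A true).Nonempty)
    (hB : (B true).Nonempty) :
    ∃ L₁ L₂ : Finset (List ℕ), (∀ w, Lg M w ↔ ∃ u ∈ L₁, ∃ v ∈ L₂, u ++ v = w) ∧
      L₁ ≠ {[]} ∧ L₂ ≠ {[]} ∧ (∀ u ∈ L₁, ∃ i, ∃ a ∈ A i, u = rm i :: a) ∧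
      ∀ v ∈ L₂, ∃ j, ∃ b ∈ B j, v = b ++ [cm j] := by
  classical
  have m1 : ∀ u, u ∈ (Finset.univ : Finset Bool).biUnion (fun i => (A i).image (rm i :: ·)) ↔
      ∃ i, ∃ a ∈ A i, u = rm i :: a := by
    intro u
    simp only [Finset.mem_biUnion, Finset.mem_univ, true_and, Finset.mem_image, eq_comm]
  have m2 : ∀ v, v ∈ (Finset.univ : Finset Bool).biUnion (fun j => (B j).image (· ++ [cm j])) ↔
      ∃ j, ∃ b ∈ B j, v = b ++ [cm j] := by
    intro v
    simp only [Finset.mem_biUnion, Finset.mem_univ, true_and, Finset.mem_image, eq_comm]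
  refine ⟨Finset.univ.biUnion fun i => (A i).image (rm i :: ·),
    Finset.univ.biUnion fun j => (B j).image (· ++ [cm j]), fun w => ?_, ?_, ?_,
    fun u hu => (m1 u).1 hu, fun v hv => (m2 v).1 hv⟩
  · constructor
    · rintro ⟨i, j, m, hm, rfl⟩
      obtain ⟨u, hu, v, hv, rfl⟩ := (h i j m).1 hm
      exact ⟨rm i :: u, (m1 _).2 ⟨i, u, hu, rfl⟩, v ++ [cm j], (m2 _).2 ⟨j, v, hv, rfl⟩, by simp⟩
    · rintro ⟨u, hu, v, hv, rfl⟩
      obtain ⟨i, a, ha, rfl⟩ := (m1 u).1 hu
      obtain ⟨j, b, hb, rfl⟩ := (m2 v).1 hv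
      exact ⟨i, j, a ++ b, (h i j _).2 ⟨a, ha, b, hb, rfl⟩, by simp⟩
  · intro h0
    obtain ⟨a, ha⟩ := hA
    have : rm true :: a ∈ (Finset.univ : Finset Bool).biUnion
      (fun i => (A i).image (rm i :: ·)) := (m1 _).2 ⟨true, a, ha, rfl⟩
    rw [h0] at this
    simp at this
  · intro h0
    obtain ⟨b, hb⟩ := hB
    have : b ++ [cm true] ∈ (Finset.univ : Finset Bool).biUnion
      (fun j => (B j).image (· ++ [cm j])) := (m2 _).2 ⟨true, b, hb, rfl⟩
    rw [h0] at this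
    simp at this

end

end Pool.Agent.Q324.FA
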